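import Pool.Agent.MWS.StmtsA

set_option autoImplicit false

namespace Pool.Agent.MWS.H16

open Pool.Agent.Helper14_MV Pool.Agent.Helper2_MV Pool.Agent.MVO Pool.Agent.MWL

theorem tr {θ : FIC} {u v w : List ℕ} (h : RR θ u v) (h' : RR θ v w) : RR θ u w := θ.trans h h'

theorem le_of {ρ σ : FIC} (h : ∀ u v : List ℕ, RR ρ u v → RR σ u v) : ρ ≤ σ := by
  intro a b hab
  have h1 := h a.toList b.toList (by
    show ρ.r (FreeMonoid.ofList a.toList) (FreeMonoid.ofList b.toList)
    rw [FreeMonoid.ofList_toList, FreeMonoid.ofList_toList]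
    exact hab)
  have h2 : σ.r (FreeMonoid.ofList a.toList) (FreeMonoid.ofList b.toList) := h1
  rwa [FreeMonoid.ofList_toList, FreeMonoid.ofList_toList] at h2

theorem pw {θ : FIC} (h : RR θ [0, 0] [0, 0, 0]) (m : ℕ) :
    RR θ (List.replicate (m + 2) 0) (List.replicate 2 0) := by
  induction m with
  | zero => exact RR.refl _
  | succ m ih =>
    have h1 : RR θ ([0] ++ List.replicate (m + 2) 0) ([0] ++ List.replicate 2 0) :=
      (RR.refl [0]).append ih
    have h2 : [0] ++ List.replicate (m + 2) 0 = List.replicate (m + 1 + 2) 0 := rfl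
    rw [h2] at h1
    exact tr h1 h.symm

theorem pw2 {θ : FIC} (h : RR θ [0, 0] [0, 0, 0]) {m : ℕ} (hm : 2 ≤ m) :
    RR θ (List.replicate m 0) [0, 0] := by
  obtain ⟨k, rfl⟩ : ∃ k, m = k + 2 := ⟨m - 2, by omega⟩
  exact pw h k

/-- **(A)** -/
theorem one_two {θ : FIC} (h : RR θ [0, 0] [0, 0, 0]) {p q : ℕ} (hp : p ≤ 1) (hpq : p < q)
    (hr : RR θ (List.replicate p 0) (List.replicate q 0)) : RR θ [0] [0, 0] := by
  interval_cases p
  · have h1 : RR θ ([0] ++ List.replicate 0 0) ([0] ++ List.replicate q 0) :=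
      (RR.refl [0]).append hr
    have h2 : [0] ++ List.replicate q 0 = List.replicate (q + 1) 0 := rfl
    rw [h2] at h1
    exact tr h1 (pw2 h (by omega))
  · exact tr hr (pw2 h (by omega))

theorem cnt_rr {θ : FIC} {u v : List ℕ} (h : RR θ u v) (c : ℕ) :
    RR θ (List.replicate (u.count c) 0) (List.replicate (v.count c) 0) := by
  have e : ∀ l : List ℕ, l.flatMap (fun i => if i = c then [0] else []) =
      List.replicate (l.count c) 0 := by
    intro l
    induction l with
    | nil => rfl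
    | cons a l ih =>
      rw [List.flatMap_cons, ih]
      by_cases hac : a = c
      · subst hac
        rw [if_pos rfl, List.count_cons_self, List.replicate_succ]
        rfl
      · rw [if_neg hac, List.count_cons_of_ne hac]
        rfl
  have h1 := h.sub (fun i => if i = c then [0] else [])
  rwa [e, e] at h1

/-- **(1)** -/
theorem one {θ : FIC} (h : RR θ [0, 0] [0, 0, 0]) {u v : List ℕ} (hr : RR θ u v) {c : ℕ}
    (hc : min (u.count c) 2 ≠ min (v.count c) 2) : RR θ [0] [0, 0] := by
  have h1 := cnt_rr hr c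
  have h2 : (u.count c ≤ 1 ∧ u.count c < v.count c) ∨
      (v.count c ≤ 1 ∧ v.count c < u.count c) := by omega
  rcases h2 with ⟨h3, h4⟩ | ⟨h3, h4⟩
  · exact one_two h h3 h4 h1
  · exact one_two h h3 h4 h1.symm

theorem zero_of {θ : FIC} (h : RR θ [0, 0] [0, 0, 0]) {q : ℕ} (hq : 1 ≤ q)
    (hr : RR θ (List.replicate 0 0) (List.replicate q 0)) : RR θ [] [0] := by
  have hE : RR θ [0] [0, 0] := one_two h (by omega) (by omega) hr
  rcases Nat.lt_or_ge q 2 with h1 | h1
  · have h2 : q = 1 := by omega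
    subst h2
    exact hr
  · exact tr hr (tr (pw2 h h1) hE.symm)

/-- **(1')** -/
theorem one' {θ : FIC} (h : RR θ [0, 0] [0, 0, 0]) {u v : List ℕ} (hr : RR θ u v) {c : ℕ}
    (hc : ¬ (c ∈ u ↔ c ∈ v)) : RR θ [] [0] := by
  have h1 := cnt_rr hr c
  by_cases hu : c ∈ u
  · have hv : c ∉ v := fun hv => hc ⟨fun _ => hv, fun _ => hu⟩
    rw [List.count_eq_zero_of_not_mem hv] at h1
    exact zero_of h (List.count_pos_iff.2 hu) h1.symm
  · have hv : c ∈ v := by
      by_contra hv
      exact hc ⟨fun h => absurd h hu, fun h => absurd h hv⟩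
    rw [List.count_eq_zero_of_not_mem hu] at h1
    exact zero_of h (List.count_pos_iff.2 hv) h1

theorem dbl_rr {θ : FIC} (hE : RR θ [0] [0, 0]) (u : List ℕ) :
    RR θ u (u.flatMap fun c => [c, c]) := by
  induction u with
  | nil => exact RR.refl _
  | cons a u ih =>
    rw [List.flatMap_cons]
    have h1 : RR θ [a] [a, a] := by
      have h2 := hE.sub (fun _ => [a])
      exact h2
    exact h1.append ih

theorem cnt_dbl (u : List ℕ) (c : ℕ) : (u.flatMap fun c => [c, c]).count c = 2 * u.count c := by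
  induction u with
  | nil => rfl
  | cons a u ih =>
    rw [List.flatMap_cons, List.count_append, ih]
    by_cases h : a = c
    · subst h
      simp
      ring
    · rw [List.count_cons_of_ne h, List.count_cons_of_ne h, List.count_cons_of_ne h]
      simp

/-- **(2)** -/
theorem two {β θ : FIC} (hcm : CmmStmt) (hβ : ApI β) (hle : β ≤ θ) (hnc : ¬ NC2 θ)
    (hE : RR θ [0] [0, 0]) {u v : List ℕ} (hc : ∀ c, c ∈ u ↔ c ∈ v) : RR θ u v := by
  refine tr (dbl_rr hE u) (tr ?_ (dbl_rr hE v).symm)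
  apply hcm β θ hβ hle hnc
  intro c
  rw [cnt_dbl, cnt_dbl]
  by_cases h : c ∈ u
  · have h1 := List.count_pos_iff.2 h
    have h2 := List.count_pos_iff.2 ((hc c).1 h)
    omega
  · rw [List.count_eq_zero_of_not_mem h,
      List.count_eq_zero_of_not_mem (fun hv => h ((hc c).2 hv))]

/-- **(3)** -/
theorem three {θ : FIC} (hZ : RR θ [] [0]) (u : List ℕ) : RR θ u [] := by
  induction u with
  | nil => exact RR.refl _
  | cons a u ih =>
    have h1 : RR θ [] [a] := hZ.sub (fun _ => [a])
    exact h1.symm.append ih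

/-- **CMP** -/
theorem cmp (hcm : CmmStmt) : CmpStmt := by
  intro β ρ σ hβ hρ hσ hnρ hnσ
  have apρ : RR ρ [0, 0] [0, 0, 0] := hρ _ _ hβ.ap
  have apσ : RR σ [0, 0] [0, 0, 0] := hσ _ _ hβ.ap
  by_cases hZρ : RR ρ [] [0]
  · right
    exact le_of fun u v _ => tr (three hZρ u) (three hZρ v).symm
  by_cases hZσ : RR σ [] [0]
  · left
    exact le_of fun u v _ => tr (three hZσ u) (three hZσ v).symm
  by_cases hEρ : RR ρ [0] [0, 0]
  · right
    refine le_of fun u v huv => two hcm hβ hρ hnρ hEρ fun c => ?_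
    by_contra hc
    exact hZσ (one' apσ huv hc)
  by_cases hEσ : RR σ [0] [0, 0]
  · left
    refine le_of fun u v huv => two hcm hβ hσ hnσ hEσ fun c => ?_
    by_contra hc
    exact hZρ (one' apρ huv hc)
  right
  refine le_of fun u v huv => hcm β ρ hβ hρ hnρ u v fun c => ?_
  by_contra hc
  exact hEσ (one apσ huv hc)

end Pool.Agent.MWS.H16
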